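import Pool.Agent.H73.CBE.Stmts

/-!
# Row COF of the board CBE
-/

set_option autoImplicit false

open Set Filter Topology

namespace Pool.CBE

theorem COF_thm (h1 : DLBStmt) : COFStmt := by
  intro n z ζ hz hζ
  obtain ⟨hd, -, h0, -, -⟩ := h1 n z ζ hz hζ
  have hs : ‖(inner ℂ ζ z : ℂ)‖ = ‖(inner ℂ z ζ : ℂ)‖ := norm_inner_symm ζ z
  rw [← hs] at hd
  obtain ⟨s, hsd⟩ : ∃ s : ℝ, s = ‖(inner ℂ ζ z : ℂ)‖ := ⟨_, rfl⟩
  have hs0 : 0 ≤ s := by rw [hsd]; exact norm_nonneg _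
  rw [← hsd] at hd ⊢
  obtain ⟨δ, hδ⟩ : ∃ δ : ℝ, δ = dl z ζ := ⟨_, rfl⟩
  rw [← hδ] at hd h0 ⊢
  constructor
  · intro k
    have h2 : s ≤ Real.exp (-δ ^ 2 / 2) := by
      have h3 : s ^ 2 ≤ Real.exp (-δ ^ 2 / 2) ^ 2 := by
        rw [← Real.exp_nat_mul]
        have h4 := Real.one_sub_le_exp_neg (δ ^ 2)
        have h5 : ((2 : ℕ) : ℝ) * (-δ ^ 2 / 2) = -(δ ^ 2) := by push_cast; ring
        rw [h5]
        linarith
      exact le_of_pow_le_pow_left₀ two_ne_zero (Real.exp_pos _).le h3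
    calc s ^ k ≤ Real.exp (-δ ^ 2 / 2) ^ k := pow_le_pow_left₀ hs0 h2 k
      _ = Real.exp (-(k * δ ^ 2) / 2) := by
          rw [← Real.exp_nat_mul]
          congr 1
          ring
  · intro d hd2 hle
    have hdR : (2 : ℝ) ≤ d := by exact_mod_cast hd2
    have hdpos : (0 : ℝ) < d := by linarith
    have h2 : δ ^ 2 ≤ 1 / d := by
      calc δ ^ 2 ≤ (1 / √(d : ℝ)) ^ 2 := pow_le_pow_left₀ h0 hle 2
        _ = 1 / d := by rw [div_pow, Real.sq_sqrt hdpos.le, one_pow]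
    have h3 : 1 - 1 / (d : ℝ) ≤ s ^ 2 := by linarith
    have hd1 : 1 / (d : ℝ) ≤ 1 / 2 := one_div_le_one_div_of_le (by norm_num) hdR
    have h4 := one_add_mul_self_le_rpow_one_add (s := -(1 / (d : ℝ))) (by linarith)
      (p := (d : ℝ) / 2) (by linarith)
    have h5 : 1 + (d : ℝ) / 2 * -(1 / (d : ℝ)) = 1 / 2 := by
      field_simp
      norm_num
    rw [h5] at h4
    have h6 : (1 + -(1 / (d : ℝ))) ^ ((d : ℝ) / 2) ≤ (s ^ 2) ^ ((d : ℝ) / 2) :=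
      Real.rpow_le_rpow (by linarith) (by linarith) (by linarith)
    have h7 : (s ^ 2) ^ ((d : ℝ) / 2) = s ^ d := by
      rw [← Real.rpow_natCast s 2, ← Real.rpow_mul hs0, ← Real.rpow_natCast s d]
      congr 1
      push_cast
      ring
    rw [h7] at h6
    exact h4.trans h6

end Pool.CBE
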