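import Pool.Agent.H73.CBE.Stmts

/-!
# Row GEX of the board CBE
-/

set_option autoImplicit false

open Set Filter Topology

namespace Pool.CBE

theorem GEX_thm : GEXStmt := by
  intro p
  have hf : (0 : ℝ) < (p.factorial : ℝ) := by exact_mod_cast p.factorial_pos
  refine ⟨p.factorial * Real.exp 2, mul_pos hf (Real.exp_pos _), fun y hy => ?_⟩
  have h1 : (1 + y) ^ p ≤ p.factorial * Real.exp (1 + y) := by
    have h := Real.pow_div_factorial_le_exp (1 + y) (by linarith) p
    rw [div_le_iff₀ hf] at h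
    rwa [mul_comm] at h
  calc (1 + y) ^ p * Real.exp (-y ^ 2 / 4)
      ≤ p.factorial * Real.exp (1 + y) * Real.exp (-y ^ 2 / 4) :=
        mul_le_mul_of_nonneg_right h1 (Real.exp_pos _).le
    _ = p.factorial * Real.exp (1 + y + -y ^ 2 / 4) := by rw [mul_assoc, ← Real.exp_add]
    _ ≤ p.factorial * Real.exp 2 := by
        refine mul_le_mul_of_nonneg_left (Real.exp_le_exp.2 ?_) hf.le
        nlinarith [sq_nonneg (y - 2)]

end Pool.CBE
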